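import Pool.Agent.Y840.PT.Alm

/-!
# Narrow progressions of `q` with all `q r_1 + 1, ..., q r_ℓ + 1` almost prime, for all `r_j` and in every dense subset

Let `ℓ ≥ 0`. There are `κ, c > 0` with the following properties. Let `T = {r_1, …, r_ℓ}` be ANY set of `ℓ` positive integers, of
arbitrary size, with `w(p) < p` for all primes `p`, that is `𝔖 ≠ 0`. Let `Pts κ x y T` be the set of the integers `q` in the interval
`(y, y + x]` for which all `q r_j + 1` are free of prime factors `≤ x ^ κ` (so they have a bounded number of prime factors, if `y`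
and the `r_j` are at most a power of `x`, for example `y = x` and `r_j ≤ b log x` as in the problem; all `q ≥ x ^ κ` for which all
`q r_j + 1` are prime are among them).

(1) For `x ≥ x₀` this set has at least `c x ∏ (1 - w (p) / p)` elements, where the product runs over the primes `p ≤ x ^ κ`.
This is the expected order.

(2) For all `m` and `ρ > 0` there are `B` and `x₀` such that for all `x ≥ x₀`, all `y`, ALL `T` (of any size) and ALL subsets
`U` of `Pts κ x y T` of relative density at least `ρ`: `U` contains an arithmetic progression of length `m` with difference at most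
`(log x) ^ B`.

The numbers `κ`, `c`, `B`, `x₀` do not depend on the `r_j` nor on `y`: this is the uniformity asked for in the problem, in a much
larger range.

Proof. Szemerédi's theorem relative to sifted sets, with narrow progressions, and the lower bound sieve, both uniform in the
sifted classes (the starting library, `Pool.Agent.Y843.HS.fin` and `Pool.Agent.Y840.PT.low`).
-/

set_option autoImplicit false

open Finset

namespace Pool.Agent.Results.MP_d018b2_nt.AlmostPrimeProgressions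

/-- `w(p)`: the number of residue classes `q mod p` with `p ∣ ∏ (q r + 1)` -/
def w (T : Finset ℕ) (p : ℕ) : ℕ := ((range p).filter (fun q => p ∣ ∏ r ∈ T, (q * r + 1))).card

/-- The product of `1 - w(p) / p` over the primes `p ≤ z`. -/
noncomputable def V (T : Finset ℕ) (z : ℕ) : ℝ :=
  ∏ p ∈ (Ioc 0 z).filter Nat.Prime, (1 - (w T p : ℝ) / (p : ℝ))

open Classical in
/-- the integers `y < q ≤ y + x` for which no `q r + 1`, `r ∈ T`, has a prime factor `≤ x ^ κ` -/
noncomputable def Pts (κ : ℝ) (x y : ℕ) (T : Finset ℕ) : Finset ℕ :=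
  (Ioc y (y + x)).filter (fun q => ∀ r ∈ T, ∀ p : ℕ, p.Prime → p ∣ q * r + 1 → (x : ℝ) ^ κ < p)

/-- `U` contains `m` consecutive terms of an arithmetic progression with difference between `1`
and `D` -/
def HasAP (m : ℕ) (D : ℝ) (U : Finset ℕ) : Prop :=
  ∃ a d : ℕ, 1 ≤ d ∧ (d : ℝ) ≤ D ∧ ∀ j < m, a + j * d ∈ U

/-- the forms -/
def TT (T : Finset ℕ) : Finset (ℕ × ℕ) := T.image (fun r => (r, 1))

lemma mem_TT {T : Finset ℕ} {L : ℕ × ℕ} : L ∈ TT T ↔ ∃ r ∈ T, (r, 1) = L := by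
  unfold TT
  rw [mem_image]

lemma card_TT (T : Finset ℕ) : (TT T).card = T.card := by
  unfold TT
  apply card_image_of_injective
  intro a b h
  exact (Prod.ext_iff.1 h).1

lemma prim_TT {T : Finset ℕ} (hT : ∀ r ∈ T, 1 ≤ r) : Pool.Agent.W218.MU.Prim (TT T) := by
  intro L hL
  obtain ⟨r, hr, rfl⟩ := mem_TT.1 hL
  exact ⟨hT r hr, Nat.coprime_one_right r⟩

lemma w_TT (T : Finset ℕ) {p : ℕ} (hp : p.Prime) : Pool.Agent.W218.MU.w (TT T) p = w T p := by
  unfold Pool.Agent.W218.MU.w w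
  congr 1
  apply filter_congr
  intro n _
  rw [hp.prime.dvd_finsetProd_iff]
  constructor
  · rintro ⟨L, hL, h⟩
    obtain ⟨r, hr, rfl⟩ := mem_TT.1 hL
    exact ⟨r, hr, by simpa [mul_comm] using h⟩
  · rintro ⟨r, hr, h⟩
    exact ⟨(r, 1), mem_TT.2 ⟨r, hr, rfl⟩, by simpa [mul_comm] using h⟩

lemma mf {p : ℕ → Prop} {dp : DecidablePred p} {s : Finset ℕ} {a : ℕ}
    (h : a ∈ @Finset.filter ℕ p dp s) : a ∈ s ∧ p a := (@Finset.mem_filter ℕ p dp s a).mp h

lemma mf' {p : ℕ → Prop} {dp : DecidablePred p} {s : Finset ℕ} {a : ℕ}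
    (h : a ∈ s ∧ p a) : a ∈ @Finset.filter ℕ p dp s := (@Finset.mem_filter ℕ p dp s a).mpr h

/-- the product of the sieve -/
lemma VV_eq (T : Finset ℕ) (R : ℕ) :
    Pool.Agent.Y843.HS.VV (Pool.Agent.Y840.PT.ZT (TT T)) 0 R = V T R := by
  unfold Pool.Agent.Y843.HS.VV Pool.Agent.Y843.HS.Pr V
  apply prod_congr rfl
  intro p hp
  rw [Pool.Agent.Y840.PT.card_ZT, w_TT T (mem_filter.1 hp).2]

/-- **Narrow progressions of `q` with all `q r + 1` almost prime, uniformly in the `r`.** -/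
theorem result (l : ℕ) :
    ∃ κ c : ℝ, 0 < κ ∧ 0 < c ∧
      (∃ x₀ : ℕ, ∀ x y : ℕ, x₀ ≤ x → ∀ T : Finset ℕ, T.card = l → (∀ r ∈ T, 1 ≤ r) →
        (∀ p : ℕ, p.Prime → w T p < p) → c * x * V T ⌊(x : ℝ) ^ κ⌋₊ ≤ (Pts κ x y T).card) ∧
      ∀ (m : ℕ) (ρ : ℝ), 0 < ρ → ∃ B x₀ : ℕ, ∀ x y : ℕ, x₀ ≤ x → ∀ T : Finset ℕ, T.card = l →
        (∀ r ∈ T, 1 ≤ r) → (∀ p : ℕ, p.Prime → w T p < p) →
        ∀ U ⊆ Pts κ x y T, ρ * ((Pts κ x y T).card : ℝ) ≤ U.card → HasAP m (Real.log x ^ B) U := by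
  classical
  obtain ⟨κ, c, hκ, hc, X₀, hlow⟩ := Pool.Agent.Y840.PT.low l
  have hlow' : ∀ x y : ℕ, X₀ ≤ x → ∀ T : Finset ℕ, T.card = l → (∀ r ∈ T, 1 ≤ r) →
      (∀ p : ℕ, p.Prime → w T p < p) → c * x * V T ⌊(x : ℝ) ^ κ⌋₊ ≤ (Pts κ x y T).card := by
    intro x y hx T hT h1 hS
    have h2 := hlow x y hx (TT T) (prim_TT h1) (by rw [card_TT, hT])
      (fun p hp => by rw [w_TT _ hp]; exact hS p hp)
    rw [VV_eq] at h2
    refine h2.trans (Nat.cast_le.2 ?_)
    unfold Pts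
    apply card_le_card
    intro n hn
    obtain ⟨hn1, hn2⟩ := mf hn
    refine mf' ⟨hn1, fun r hr p hp hd => ?_⟩
    by_contra hcon
    exact hn2 (r, 1) (mem_TT.2 ⟨r, hr, rfl⟩) p hp (not_lt.1 hcon) (by simpa [mul_comm] using hd)
  refine ⟨κ, c, hκ, hc, ⟨X₀, hlow'⟩, ?_⟩
  intro m ρ hρ
  obtain ⟨B, X₂, hB⟩ := Pool.Agent.Y843.HS.fin m l κ (ρ * c) hκ (by positivity)
  refine ⟨B, max X₀ X₂, fun x y hx T hT hT1 hS U hU hUc => ?_⟩
  apply hB x y ((le_max_right _ _).trans hx) (Pool.Agent.Y840.PT.ZT (TT T))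
  · intro p hp _
    refine ⟨?_, ?_, fun c hcz => mem_range.1 (mem_filter.1 hcz).1⟩
    · rw [Pool.Agent.Y840.PT.card_ZT]
      have := Pool.Agent.W218.MU.w_le (prim_TT hT1) hp
      rw [card_TT, hT] at this
      exact this
    · rw [Pool.Agent.Y840.PT.card_ZT, w_TT _ hp]
      exact hS p hp
  · intro n hn
    exact (mf (hU hn)).1
  · intro n hn p hp hpX hmem
    obtain ⟨L, hL, hd⟩ := (Pool.Agent.Y840.PT.mem_ZT _ hp.pos n).1 hmem
    obtain ⟨r, hr, rfl⟩ := mem_TT.1 hL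
    have h3 := (mf (hU hn)).2 r hr p hp (by simpa [mul_comm] using hd)
    linarith
  · have h1 := hlow' x y ((le_max_left _ _).trans hx) T hT hT1 hS
    rw [VV_eq]
    calc ρ * c * x * V T ⌊(x : ℝ) ^ κ⌋₊ = ρ * (c * x * V T ⌊(x : ℝ) ^ κ⌋₊) := by ring
      _ ≤ ρ * ((Pts κ x y T).card : ℝ) := mul_le_mul_of_nonneg_left h1 hρ.le
      _ ≤ _ := hUc

end Pool.Agent.Results.MP_d018b2_nt.AlmostPrimeProgressions
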