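import Pool.Agent.Q48.RD.MomS2

/-!
# Prime tuplets `q r_1 + 1, …, q r_l + 1` in short intervals: all moments

Let `l ≥ 2` and let `r_1, …, r_l` be distinct positive integers. We count the `q` in `(x, x + T]` for which all the numbers `q r_j + 1` are primes (or almost
primes). There is no local condition: for `q` divisible by `p` no `q r_j + 1` is divisible by `p`.

Let `g ≥ 2` be a base and `K` a large number of digits. For every `i < K` let `A i` be an arbitrary set of digits, such that the number
`|A 0| ⋯ |A (K - 1)|` of the integers `t < g ^ K` whose `i`-th digit belongs to `A i` for all `i < K` is at least `exp (- δ K) g ^ K`.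
Let `N ≤ g ^ (E K)` be arbitrary. We consider the numbers `x = N + t` with these `t`: they form a set with only
`y ^ (1 - δ')` elements in an interval of length `y = g ^ K`, which may be an arbitrarily small power of `x`.

Let `k ≥ 1` and `T ≤ g ^ (E K)`. The conjecture of Hardy and Littlewood (Dickson) for the `k` systems shifted by `h_1, …, h_k`, averaged
over all `h_1, …, h_k ≤ T`, predicts that the mean value of the `k`-th power of this number has the order of magnitude of
`(T / K ^ l) ^ k` for `T ≥ K ^ l` and of `T / K ^ l` for `T ≤ K ^ l`. We prove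

(1) the upper bound of this order for the primes, for `x` in all these sets;

(2) the exact order of magnitude for the almost primes;

(3) that a positive proportion (for `T ≤ K ^ l`: the expected proportion `T / K ^ l`) of the intervals `(x, x + T]` contains the
expected number of such integers, with almost primes.
-/

set_option autoImplicit false

namespace Pool.Agent.Results.MP_d018b2_nt.MomentsInShortIntervals

open Filter Finset
open Pool.Agent.Q315.RD Pool.Agent.Q48.RD

/-- The number of the `q` with `x < q ≤ x + T` for which all the numbers `q r_j + 1` are primes. -/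
def primesIn {l : ℕ} (ρ : Fin l → ℕ) (x T : ℕ) : ℕ := ((Ioc x (x + T)).filter fun q => ∀ j, (q * ρ j + 1).Prime).card

open Classical in
/-- The number of the `q` with `x < q ≤ x + T` for which all the numbers `q r_j + 1` have at most `r` prime factors, all larger than
`y ^ (1 / r)`. -/
noncomputable def almostPrimesIn (y r : ℕ) {l : ℕ} (ρ : Fin l → ℕ) (x T : ℕ) : ℕ :=
  ((Ioc x (x + T)).filter fun q => ∀ j, AlmostPrime y r (q * ρ j + 1)).card

open Classical in
/-- The integers `t < g ^ K` whose `i`-th digit belongs to `A i` for all `i < K`. -/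
noncomputable def digitSet (g K : ℕ) (A : ℕ → Finset ℕ) : Finset ℕ := (range (g ^ K)).filter (HasDigits g K A)

/-- The predicted order of magnitude of the mean value of the `k`-th power: `T / K ^ m` for `T ≤ K ^ m` and `(T / K ^ m) ^ k` for
`T ≥ K ^ m`. -/
noncomputable def order (m k T K : ℕ) : ℝ := min 1 ((T : ℝ) / (K : ℝ) ^ m) * max 1 ((T : ℝ) / (K : ℝ) ^ m) ^ k

/-- **All moments of the number of prime tuplets `q r_j + 1` in short intervals.** -/
theorem result {l : ℕ} (_hl : 2 ≤ l) (ρ : Fin l → ℕ) (hρ : Function.Injective ρ) (hρ1 : ∀ j, 1 ≤ ρ j) (k : ℕ) (hk : 1 ≤ k) (E : ℕ) :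
    ∃ δ : ℝ, 0 < δ ∧ ∃ r₀ : ℕ, 2 ≤ r₀ ∧ ∀ r : ℕ, r₀ ≤ r → ∀ g : ℕ, 2 ≤ g → ∃ κ C : ℝ, 0 < κ ∧ 0 < C ∧
      ∀ᶠ K : ℕ in atTop, ∀ N T : ℕ, N ≤ g ^ (E * K) → 1 ≤ T → T ≤ g ^ (E * K) →
        ∀ A : ℕ → Finset ℕ, (∀ i < K, A i ⊆ range g) → (g : ℝ) ^ K ≤ Real.exp (δ * K) * choices K A →
        -- the primes
        ∑ t ∈ digitSet g K A, (primesIn ρ (N + t) T : ℝ) ^ k ≤ C * order l k T K * choices K A ∧
        -- the almost primes
        ∑ t ∈ digitSet g K A, (almostPrimesIn (g ^ K) r ρ (N + t) T : ℝ) ^ k ≤ C * order l k T K * choices K A ∧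
        (g ≤ T →
          κ * order l k T K * choices K A ≤ ∑ t ∈ digitSet g K A, (almostPrimesIn (g ^ K) r ρ (N + t) T : ℝ) ^ k ∧
          κ * min 1 ((T : ℝ) / (K : ℝ) ^ l) * choices K A ≤
            (((digitSet g K A).filter fun t => κ * max 1 ((T : ℝ) / (K : ℝ) ^ l) ≤ almostPrimesIn (g ^ K) r ρ (N + t) T).card : ℝ)) := by
  classical
  have hz : ∀ j, (1 : ℤ) ≤ ρ j := fun j => by exact_mod_cast hρ1 j
  obtain ⟨δ, hδ, r0, hr0, H⟩ := sysMoments ρ (fun _ => 1) hρ1 (fun j => isCoprime_one_right)
    (fun i j hij d h => by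
      have h1 := hz i
      have h2 := hz j
      have hne : (ρ i : ℤ) ≠ ρ j := fun h3 => hij (hρ (by exact_mod_cast h3))
      push_cast at h
      have h4 : ((ρ i : ℤ) * ρ j) ∣ (ρ i - ρ j) := ⟨-d, by linarith⟩
      have h5 : (ρ i : ℤ) - ρ j = 0 := by
        apply Int.eq_zero_of_abs_lt_dvd h4
        rw [abs_lt]
        constructor <;> nlinarith
      exact hne (by linarith))
    (fun p hp => ⟨0, fun j h => by
      have h1 : (p : ℤ) ∣ 1 := by simpa using h
      have h2 := Int.le_of_dvd one_pos h1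
      have := hp.one_lt
      omega⟩)
    (fun j q => q * ρ j + 1) (fun j q _ => by push_cast; ring) k hk E
  refine ⟨δ, hδ, r0, hr0, fun r hr g hg => ?_⟩
  obtain ⟨κ, C, hκ, hC, H⟩ := H r hr g hg
  refine ⟨κ, C, hκ, hC, ?_⟩
  filter_upwards [H] with K HK
  intro N T hN hT1 hT A hA1 hA2
  obtain ⟨h1, h2, h3⟩ := HK N T hN hT1 hT A ⟨hA1, hA2⟩
  have e1 : ∀ x, primesIn ρ x T = numIn (fun q => ∀ j, (q * ρ j + 1).Prime) x T := by
    intro x
    unfold primesIn numIn
    congr!
  have e2 : ∀ x, almostPrimesIn (g ^ K) r ρ x T = numIn (fun q => ∀ j, AlmostPrime (g ^ K) r (q * ρ j + 1)) x T := by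
    intro x
    unfold almostPrimesIn numIn
    congr!
  simp only [e1, e2]
  refine ⟨h1, h2, fun hgT => ⟨(h3 hgT).1, (h3 hgT).2.trans (le_of_eq ?_)⟩⟩
  unfold count digitSet
  rw [filter_filter]

end Pool.Agent.Results.MP_d018b2_nt.MomentsInShortIntervals
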