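import Pool.Agent.Q315.RD

/-!
# Tuplets of almost primes `q r_1 + 1, ..., q r_ℓ + 1`, uniformly in the `r_j`, in short intervals and for `q` with restricted digits

Let `g ≥ 2` be a base and `K` a large number of digits. For every `i < K` let `A i` be an arbitrary non-empty set of digits. Nothing
is assumed about these sets except that they are not too small on average: the number `|A 0| ⋯ |A (K - 1)|` of the integers
`t < g ^ K` whose `i`-th digit belongs to `A i` for all `i < K` is at least `exp (- c K) g ^ K`, where `c > 0` does not depend on the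
base (`Rich`; for example all digits are allowed, or a digit is missing everywhere and the base is large, or the digits at an
arbitrary set of at most `c' K` places are prescribed).

Let `r_1, …, r_ℓ` be ANY positive integers with `𝔖 ≠ 0` (that is `w(p) < p` for all primes `p`) which are at most `g ^ (E K)`, an
arbitrary power of the number `g ^ K` of integers in the interval (in the problem they are at most `b log x`), and let
`N ≤ g ^ (E K)`, so that the interval `[N, N + g ^ K)` may be very short. The number of the `q = N + t`, `t < g ^ K` with digits in the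
sets `A i`, for which all the `q r_j + 1` have at most `s` prime factors, all larger than `g ^ (K / s)`, is at least
`κ V |A 0| ⋯ |A (K - 1)|`, unless there is an obvious obstruction (no digit `d` in `A 0` such that all the `(N + d) r_j + 1` are prime
to `g`); here `V` is the product of `1 - w (p) / p` over the primes `p ≤ g ^ K`, the expected order. The number of the `q` for which
all the `q r_j + 1` are PRIMES is at most `C V |A 0| ⋯ |A (K - 1)|`. The constants `κ` and `C` are independent of the `r_j`, of `N` and of
the sets `A i`, as required in the problem.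

Proof. The theorem on almost prime values of polynomials at integers with restricted digits, uniform in the polynomial, of the
starting library (`Pool.Agent.Y816.PD.uni_fun`).
-/

set_option autoImplicit false

namespace Pool.Agent.Results.MP_d018b2_nt.RestrictedDigits

open Filter Finset
open Pool.Agent.Q315.RD

/-- `w(p)` of the problem: the number of residue classes `q mod p` with `p ∣ ∏ (q r_j + 1)` -/
def w {l : ℕ} (r : Fin l → ℕ) (p : ℕ) : ℕ := ((range p).filter (fun q => p ∣ ∏ j, (q * r j + 1))).card

/-- The product of `1 - w(p) / p` over the primes `p ≤ y`. -/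
noncomputable def V {l : ℕ} (r : Fin l → ℕ) (y : ℕ) : ℝ :=
  ∏ p ∈ (Icc 1 y).filter Nat.Prime, (1 - (w r p : ℝ) / (p : ℝ))

lemma dvd_iff {l : ℕ} (r : Fin l → ℕ) {p : ℕ} (hp : p.Prime) (q : ℕ) :
    p ∣ ∏ j, (q * r j + 1) ↔ ∃ j, p ∣ q * r j + 1 := by
  rw [hp.prime.dvd_finsetProd_iff]
  simp

lemma classes_eq {l : ℕ} (r : Fin l → ℕ) {p : ℕ} (hp : p.Prime) (N : ℕ) :
    (classes p fun t => ∃ j, p ∣ (N + t) * r j + 1) = w r p := by
  classical
  rw [classes_shift p N (fun n => ∃ j, p ∣ n * r j + 1)]
  · unfold classes w
    apply congrArg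
    ext t
    simp only [mem_filter, dvd_iff r hp]
  · intro n
    refine exists_congr fun j => ?_
    rw [show (n + p) * r j + 1 = (n * r j + 1) + p * r j by ring]
    exact (Nat.dvd_add_left (Dvd.intro _ rfl))

lemma classes_all' {p : ℕ} {B : ℕ → Prop} (h : ∀ t, B t) : classes p B = p := by
  classical
  unfold classes
  rw [filter_true_of_mem (fun t _ => h t), card_range]

lemma density_V {l : ℕ} (r : Fin l → ℕ) (N y : ℕ) :
    density (fun j t => (N + t) * r j + 1) y = V r y := by
  unfold density V
  apply prod_congr rfl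
  intro p hp
  rw [classes_eq r (mem_filter.1 hp).2 N]

/-- **Tuplets of almost primes `q r_j + 1`, uniformly in the `r_j` and in the position of the interval.** -/
theorem result (l E : ℕ) (hl : 1 ≤ l) :
    ∃ c : ℝ, 0 < c ∧ ∃ s₀ : ℕ, 2 ≤ s₀ ∧ ∀ s : ℕ, s₀ ≤ s → ∀ g : ℕ, 2 ≤ g → ∃ κ C : ℝ, 0 < κ ∧ 0 < C ∧
      ∀ᶠ K : ℕ in atTop, ∀ N : ℕ, N ≤ g ^ (E * K) →
        ∀ r : Fin l → ℕ, (∀ j, 1 ≤ r j ∧ r j ≤ g ^ (E * K)) → (∀ p : ℕ, p.Prime → w r p < p) →
        ∀ A : ℕ → Finset ℕ, Rich c g K A →
          ((∃ d ∈ A 0, ∀ j, ((N + d) * r j + 1).Coprime g) →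
            κ * V r (g ^ K) * choices K A ≤
              count g K A fun t => ∀ j, AlmostPrime (g ^ K) s ((N + t) * r j + 1)) ∧
          (count g K A (fun t => ∀ j, ((N + t) * r j + 1).Prime) : ℝ) ≤ C * V r (g ^ K) * choices K A := by
  obtain ⟨c, hc, s₀, hs₀, h⟩ := forms l ((2 * E + 3) * l) hl
  refine ⟨c, hc, s₀, hs₀, fun s hs g hg => ?_⟩
  obtain ⟨κ, C, hκ, hC, h1⟩ := h s hs g hg
  refine ⟨κ, C, hκ, hC, ?_⟩
  filter_upwards [h1, eventually_ge_atTop 1] with K hK hK1
  intro N hN r hr hw A hA
  have hg1 : 1 ≤ g := by omega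
  have h2K : 2 ≤ g ^ K := hg.trans (Nat.le_self_pow (by omega) g)
  obtain ⟨hlow, hup⟩ := hK l (fun j t => (N + t) * r j + 1)
    ⟨∏ j, (Polynomial.C (r j : ℤ) * Polynomial.X + Polynomial.C ((N : ℤ) * r j + 1)), by
      refine (Polynomial.natDegree_prod_le _ _).trans ?_
      calc ∑ j, (Polynomial.C (r j : ℤ) * Polynomial.X + Polynomial.C ((N : ℤ) * r j + 1)).natDegree
          ≤ ∑ _j : Fin l, 1 := by
            refine sum_le_sum fun j _ => ?_
            exact Polynomial.natDegree_linear_le
        _ = l := by simp, fun t => by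
      rw [Polynomial.eval_prod]
      apply prod_congr rfl
      intro j _
      simp only [Polynomial.eval_add, Polynomial.eval_mul, Polynomial.eval_C, Polynomial.eval_X]
      push_cast
      ring⟩
    (fun p hp => by
      have h3 := hw p hp
      rw [← classes_eq r hp N] at h3
      by_contra hcon
      push Not at hcon
      rw [classes_all' hcon] at h3
      exact lt_irrefl _ h3)
    (fun t _ j => by
      have h4 : t ≤ (N + t) * r j := (Nat.le_add_left t N).trans (Nat.le_mul_of_pos_right _ (hr j).1)
      omega)
    (fun t ht => by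
      have h5 : ∀ j, (N + t) * r j + 1 ≤ g ^ ((2 * E + 3) * K) := by
        intro j
        have h6 : 1 ≤ g ^ (E * K) := Nat.one_le_pow _ _ hg1
        have h7 : N + t + 1 ≤ g ^ (E * K) * (g ^ K * g ^ K) := by
          have h8 : N + t + 1 ≤ g ^ (E * K) + g ^ K := by omega
          have h9 : g ^ (E * K) + g ^ K ≤ g ^ (E * K) * (1 + g ^ K) := by nlinarith
          have h10 : 1 + g ^ K ≤ g ^ K * g ^ K := by nlinarith
          exact h8.trans (h9.trans (Nat.mul_le_mul_left _ h10))
        calc (N + t) * r j + 1 ≤ (N + t + 1) * r j := by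
              have := (hr j).1
              nlinarith
          _ ≤ (g ^ (E * K) * (g ^ K * g ^ K)) * g ^ (E * K) := Nat.mul_le_mul h7 (hr j).2
          _ = g ^ ((2 * E + 2) * K) := by rw [← pow_add, ← pow_add, ← pow_add]; congr 1; ring
          _ ≤ g ^ ((2 * E + 3) * K) := Nat.pow_le_pow_right hg1 (by nlinarith)
      calc ∏ j, ((N + t) * r j + 1) ≤ ∏ _j : Fin l, g ^ ((2 * E + 3) * K) :=
            prod_le_prod' fun j _ => h5 j
        _ = g ^ ((2 * E + 3) * l * K) := by
            rw [prod_const, card_univ, Fintype.card_fin, ← pow_mul]; congr 1; ring) A hA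
  rw [density_V] at hlow hup
  exact ⟨hlow, hup⟩

end Pool.Agent.Results.MP_d018b2_nt.RestrictedDigits
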