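import Pool.Agent.Q25.UReg3

/-!
# The laws of the almost prime tuplets `q r_j + 1`, uniformly in the `r_j`

All systems of the forms `q r_j + 1` with `ℓ ≥ 2` distinct positive integers `r_j ≤ X ^ E` (the problem has
`r_j ≤ b log x`). A number `q` is good if no `q r_j + 1` has a prime factor `≤ X ^ (1/R)`. In ALL intervals of length at
least `X ^ θ` the numbers of the good integers in windows follow the Poisson law, the gaps between the good integers are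
exponentially distributed, and almost all elements of an ARBITRARY set of good integers are regular points of this set, all
this uniformly in the `r_j` and in the intervals.
-/

set_option autoImplicit false

namespace Pool.Agent.Results.MP_d018b2_nt.UniformLaws

open Finset
open Pool.Agent.Q25.UReg (Good V count pois PoissonLaw GapLaw N RightOrder ConstantDensity badScales Irregular)

/-- the coefficients of the forms `q r_j + 1` -/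
def co {ℓ : ℕ} (ρ : Fin ℓ → ℕ) : Fin ℓ → ℤ := fun j => (ρ j : ℤ)

/-- the constant terms of the forms `q r_j + 1` -/
def ones (ℓ : ℕ) : Fin ℓ → ℤ := fun _ => 1

/-- **The laws of the almost prime tuplets `q r_j + 1`, uniformly in the `r_j`.** -/
theorem result (ℓ : ℕ) (hℓ : 2 ≤ ℓ) (E θ : ℝ) (hE : 0 < E) (hθ : 0 < θ) :
    (∀ (l₀ : ℕ) (x₀ ε : ℝ), 0 < ε → ∃ R₀ : ℕ, ∀ R : ℕ, R₀ ≤ R → ∃ X₀ : ℕ, ∀ X : ℕ, X₀ ≤ X →
      ∀ ρ : Fin ℓ → ℕ, Function.Injective ρ → (∀ j, 1 ≤ ρ j) → (∀ j, (ρ j : ℝ) ≤ (X : ℝ) ^ E) →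
        ∀ Z Y : ℕ, (X : ℝ) ^ θ ≤ Y →
          PoissonLaw (co ρ) (ones ℓ) R X Z Y x₀ ε ∧ GapLaw (co ρ) (ones ℓ) R X Z Y l₀ x₀ ε) ∧
    ∃ R₀ : ℕ, ∀ R : ℕ, R₀ ≤ R → ∀ ε : ℝ, 0 < ε → ∃ c : ℝ, 0 < c ∧ ∀ δ : ℝ, 0 < δ → ∃ B X₀ : ℕ,
      ∀ X : ℕ, X₀ ≤ X → ∀ ρ : Fin ℓ → ℕ, Function.Injective ρ → (∀ j, 1 ≤ ρ j) → (∀ j, (ρ j : ℝ) ≤ (X : ℝ) ^ E) →
        ∀ u Y : ℕ, (X : ℝ) ^ θ ≤ Y → Y ≤ X → Y ≤ u → ∀ A : Set ℕ, (∀ q ∈ A, Good (co ρ) (ones ℓ) R X q) →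
          (N (Irregular A (V (co ρ) (ones ℓ) R X) c δ B Y) u (u + Y) : ℝ) ≤ ε * (Y * V (co ρ) (ones ℓ) R X) := by
  have hadm : ∀ ρ : Fin ℓ → ℕ, ∀ p : ℕ, p.Prime → ∃ m : ℕ, ∀ i, ¬ (p : ℤ) ∣ co ρ i * (m : ℤ) + ones ℓ i := by
    intro ρ p hp
    refine ⟨0, fun i => ?_⟩
    unfold ones
    simp only [Nat.cast_zero, mul_zero, zero_add]
    intro h
    exact hp.one_lt.ne' (Nat.dvd_one.1 (by exact_mod_cast h))
  have hne : ∀ ρ : Fin ℓ → ℕ, Function.Injective ρ → ∃ i j, ¬ (co ρ i = co ρ j ∧ ones ℓ i = ones ℓ j) := by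
    intro ρ hρ
    refine ⟨⟨0, by omega⟩, ⟨1, by omega⟩, fun h1 => ?_⟩
    have h2 : ρ ⟨0, by omega⟩ = ρ ⟨1, by omega⟩ := by
      have := h1.1
      unfold co at this
      exact_mod_cast this
    exact absurd (congrArg Fin.val (hρ h2)) (by norm_num)
  have hpos : ∀ ρ : Fin ℓ → ℕ, (∀ j, 1 ≤ ρ j) → ∀ i, 0 < co ρ i := by
    intro ρ h i
    unfold co
    exact_mod_cast h i
  have hH : ∀ (X : ℕ) (ρ : Fin ℓ → ℕ), (∀ j, (ρ j : ℝ) ≤ (X : ℝ) ^ E) → ∀ i, (co ρ i : ℝ) ≤ (X : ℝ) ^ E := by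
    intro X ρ h i
    unfold co
    push_cast
    exact h i
  have h1H : ∀ X : ℕ, 1 ≤ X → ∀ i, |(ones ℓ i : ℝ)| ≤ (X : ℝ) ^ E := by
    intro X hX i
    unfold ones
    push_cast
    rw [abs_one]
    exact Real.one_le_rpow (by exact_mod_cast hX) hE.le
  constructor
  · intro l₀ x₀ ε hε
    obtain ⟨R₀, _, h⟩ := Pool.Agent.Q25.UReg.lin_laws ℓ E 1 θ hE one_pos hθ l₀ x₀ ε hε
    refine ⟨R₀, fun R hR => ?_⟩
    obtain ⟨X₀, hX₀⟩ := Filter.eventually_atTop.1 ((h R hR).and (Filter.eventually_ge_atTop 1))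
    refine ⟨X₀, fun X hX ρ hρ h1 hE' Z Y hY => ?_⟩
    refine (hX₀ X hX).1 (co ρ) (ones ℓ) (hpos ρ h1) (hH X ρ hE') (h1H X (hX₀ X hX).2) (hadm ρ) (hne ρ hρ) ?_ Z Y hY
    intro i j t ht _ h2
    have h3 := h2.2
    unfold ones at h3
    have h4 : (0 : ℤ) < co ρ j * t := mul_pos (hpos ρ h1 j) (by exact_mod_cast ht)
    omega
  · obtain ⟨R₀, _, h⟩ := Pool.Agent.Q25.UReg.lin_reg ℓ E θ hE hθ
    refine ⟨R₀, fun R hR ε hε => ?_⟩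
    obtain ⟨c, hc, h1⟩ := h R hR ε hε
    refine ⟨c, hc, fun δ hδ => ?_⟩
    obtain ⟨B, hB⟩ := h1 δ hδ
    obtain ⟨X₀, hX₀⟩ := Filter.eventually_atTop.1 (hB.and (Filter.eventually_ge_atTop 1))
    exact ⟨B, X₀, fun X hX ρ hρ h1 hE' u Y hXY hYX hYu A hA =>
      (hX₀ X hX).1 (co ρ) (ones ℓ) (hpos ρ h1) (hH X ρ hE') (h1H X (hX₀ X hX).2) (hadm ρ) (hne ρ hρ) u Y hXY hYX hYu A hA⟩

end Pool.Agent.Results.MP_d018b2_nt.UniformLaws
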